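import Mathlib

/-!
# Decks of graphs with permuted threads

An abstract form of the sign-reversing involution: `th i p` is the vertex at position `p` of the
thread `i`. If the graphs `G π` are such that the parts of the threads `i`, `j` beyond the position
`r` can be interchanged when the vertices at position `r` of both threads are deleted, then for
`t < (k - 1) * M` the `t`-vertex decks of the graphs `G π`, `π` even, and of the graphs `G π`,
`π` odd, are together the same.
-/

open Finset Equiv

namespace Pool.Agent.X62.HD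

/-- The sets of `t` vertices inducing a copy of `F`. -/
def copies {V : Type} (G : SimpleGraph V) {t : ℕ} (F : SimpleGraph (Fin t)) : Set (Set V) :=
  {S | S.ncard = t ∧ Nonempty (G.induce S ≃g F)}

/-- `G` and `G'` have the same deck of induced subgraphs with `t` vertices. -/
def SameDeck {V W : Type} (G : SimpleGraph V) (G' : SimpleGraph W) (t : ℕ) : Prop :=
  ∀ F : SimpleGraph (Fin t), (copies G F).ncard = (copies G' F).ncard

section iso

theorem copies_ncard_of_iso {V W : Type} {G : SimpleGraph V} {G' : SimpleGraph W} (φ : G ≃g G')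
    {t : ℕ} (F : SimpleGraph (Fin t)) : (copies G F).ncard = (copies G' F).ncard := by
  have key : ∀ {V W : Type} {G : SimpleGraph V} {G' : SimpleGraph W} (φ : G ≃g G') (S : Set V),
      S ∈ copies G F → φ '' S ∈ copies G' F := by
    rintro V W G G' φ S ⟨h1, ⟨e⟩⟩
    refine ⟨?_, ?_⟩
    · rw [Set.InjOn.ncard_image (φ.injective.injOn), h1]
    · have e' : G.induce S ≃g G'.induce (φ '' S) := by
        refine ⟨Equiv.Set.image φ S φ.injective, ?_⟩
        intro a b
        have := φ.map_adj_iff (v := a.1) (w := b.1)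
        simpa [SimpleGraph.comap_adj] using this
      exact ⟨e'.symm.trans e⟩
  apply Set.ncard_congr (fun S _ => φ '' S)
  · intro S hS
    exact key φ S hS
  · intro S T _ _ h
    exact φ.injective.image_injective h
  · intro T hT
    refine ⟨φ.symm '' T, key φ.symm T hT, ?_⟩
    ext x
    simp

end iso

variable {X : Type} {k M : ℕ}

/-- The permutation of the positions of the threads: interchange the parts of the threads `i`, `j`
beyond the position `r`. -/
def rho (i j : Fin k) (r : ℕ) : Perm (Fin k × Fin M) where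
  toFun a := (if r < a.2.val then swap i j a.1 else a.1, a.2)
  invFun a := (if r < a.2.val then swap i j a.1 else a.1, a.2)
  left_inv a := by
    obtain ⟨a, p⟩ := a
    dsimp only
    split_ifs <;> simp
  right_inv a := by
    obtain ⟨a, p⟩ := a
    dsimp only
    split_ifs <;> simp

/-- interchange the parts of the threads `i`, `j` beyond the position `r` -/
noncomputable def tau (th : Fin k × Fin M ↪ X) (i j : Fin k) (r : ℕ) : Perm X :=
  (rho i j r).viaEmbedding th

theorem tau_th (th : Fin k × Fin M ↪ X) (i j : Fin k) (r : ℕ) (a : Fin k) (p : Fin M) :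
    tau th i j r (th (a, p)) = th (if r < p.val then swap i j a else a, p) := by
  unfold tau
  rw [Equiv.Perm.viaEmbedding_apply]
  rfl

theorem tau_not (th : Fin k × Fin M ↪ X) (i j : Fin k) (r : ℕ) (x : X)
    (hx : x ∉ Set.range th) : tau th i j r x = x := by
  unfold tau
  rw [Equiv.Perm.viaEmbedding_apply_of_notMem _ _ _ hx]

theorem tau_tau (th : Fin k × Fin M ↪ X) (i j : Fin k) (r : ℕ) (x : X) :
    tau th i j r (tau th i j r x) = x := by
  by_cases hx : x ∈ Set.range th
  · obtain ⟨⟨a, p⟩, rfl⟩ := hx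
    rw [tau_th, tau_th]
    split_ifs <;> simp
  · rw [tau_not _ _ _ _ _ hx, tau_not _ _ _ _ _ hx]

theorem tau_th_le (th : Fin k × Fin M ↪ X) (i j : Fin k) (r : ℕ) (a : Fin k) (p : Fin M)
    (h : p.val ≤ r) : tau th i j r (th (a, p)) = th (a, p) := by
  rw [tau_th, if_neg (by omega)]

/-- the threads whose vertex at position `r` is missing from `U` -/
noncomputable def miss (th : Fin k × Fin M ↪ X) (U : Finset X) (r : Fin M) : Finset (Fin k) := by
  classical exact univ.filter fun i => th (i, r) ∉ U

theorem mem_miss {th : Fin k × Fin M ↪ X} {U : Finset X} {r : Fin M} {i : Fin k} :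
    i ∈ miss th U r ↔ th (i, r) ∉ U := by
  unfold miss
  simp

theorem miss_map (th : Fin k × Fin M ↪ X) (U : Finset X) (i j : Fin k) (r : ℕ) (p : Fin M)
    (h : p.val ≤ r) : miss th (U.map (tau th i j r).toEmbedding) p = miss th U p := by
  ext a
  rw [mem_miss, mem_miss, not_iff_not]
  constructor
  · intro hm
    obtain ⟨x, hx, he⟩ := Finset.mem_map.1 hm
    have h1 : tau th i j r (tau th i j r x) = tau th i j r (th (a, p)) := congrArg _ he
    rw [tau_tau, tau_th_le _ _ _ _ _ _ h] at h1
    rwa [← h1]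
  · intro hm
    refine Finset.mem_map.2 ⟨th (a, p), hm, ?_⟩
    exact tau_th_le _ _ _ _ _ _ h

/-- two elements of a finite set with at least two elements -/
theorem exists_pair (S : Finset (Fin k)) (hS : 2 ≤ S.card) : ∃ a : Fin k × Fin k,
    a.1 ∈ S ∧ a.2 ∈ S ∧ a.1 ≠ a.2 := by
  obtain ⟨a, b, ha, hb, hab⟩ := Finset.one_lt_card_iff.1 (by omega : 1 < S.card)
  exact ⟨(a, b), ha, hb, hab⟩

open Classical in
/-- a choice of two elements -/
noncomputable def pairOf (S : Finset (Fin k)) : Option (Fin k × Fin k) :=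
  if h : 2 ≤ S.card then some (exists_pair S h).choose else none

theorem pairOf_spec {S : Finset (Fin k)} {a : Fin k × Fin k} (h : pairOf S = some a) :
    a.1 ∈ S ∧ a.2 ∈ S ∧ a.1 ≠ a.2 := by
  unfold pairOf at h
  split_ifs at h with h2
  rw [Option.some_inj] at h
  rw [← h]
  exact (exists_pair S h2).choose_spec

theorem exists_pairOf {S : Finset (Fin k)} (h : 2 ≤ S.card) : ∃ a, pairOf S = some a := by
  unfold pairOf
  rw [dif_pos h]
  exact ⟨_, rfl⟩

/-- the canonical position and pair of threads -/
def Good (th : Fin k × Fin M ↪ X) (U : Finset X) (a : Fin M × Fin k × Fin k) : Prop :=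
  (∀ r' < a.1, (miss th U r').card < 2) ∧ 2 ≤ (miss th U a.1).card ∧
    pairOf (miss th U a.1) = some a.2

theorem Good.unique {th : Fin k × Fin M ↪ X} {U : Finset X} {a b : Fin M × Fin k × Fin k}
    (ha : Good th U a) (hb : Good th U b) : a = b := by
  have h1 : a.1 = b.1 := by
    rcases lt_trichotomy a.1 b.1 with h | h | h
    · have := hb.1 _ h
      have := ha.2.1
      omega
    · exact h
    · have := ha.1 _ h
      have := hb.2.1
      omega
  have h2 : some a.2 = some b.2 := by rw [← ha.2.2, ← hb.2.2, h1]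
  rw [Option.some_inj] at h2
  exact Prod.ext h1 h2

theorem exists_good {th : Fin k × Fin M ↪ X} {U : Finset X}
    (h : ∃ r, 2 ≤ (miss th U r).card) : ∃ a, Good th U a := by
  classical
  have hne : (univ.filter fun r => 2 ≤ (miss th U r).card).Nonempty := by
    obtain ⟨r, hr⟩ := h
    exact ⟨r, by simpa using hr⟩
  obtain ⟨r, hr, hmin⟩ := Finset.exists_min_image _ id hne
  simp only [mem_filter, mem_univ, true_and, id] at hr hmin
  obtain ⟨a, ha⟩ := exists_pairOf hr
  refine ⟨(r, a), ?_, hr, ha⟩
  intro r' hr'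
  by_contra hcon
  exact absurd (hmin r' (by omega)) (not_le.2 hr')

theorem Good.map {th : Fin k × Fin M ↪ X} {U : Finset X} {a : Fin M × Fin k × Fin k}
    (ha : Good th U a) : Good th (U.map (tau th a.2.1 a.2.2 a.1).toEmbedding) a := by
  refine ⟨?_, ?_, ?_⟩
  · intro r' hr'
    rw [miss_map _ _ _ _ _ _ (le_of_lt hr')]
    exact ha.1 r' hr'
  · rw [miss_map _ _ _ _ _ _ le_rfl]
    exact ha.2.1
  · rw [miss_map _ _ _ _ _ _ le_rfl]
    exact ha.2.2

/-- A set with fewer than `(k - 1) M` elements misses two threads at the same position. -/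
theorem exists_miss [Finite X] (th : Fin k × Fin M ↪ X) (U : Finset X)
    (hU : U.card < (k - 1) * M) : ∃ r, 2 ≤ (miss th U r).card := by
  classical
  by_contra hcon
  push Not at hcon
  have h1 : ∀ r : Fin M, k - 1 ≤ (univ.filter fun i : Fin k => th (i, r) ∈ U).card := by
    intro r
    have h2 := hcon r
    have h3 : (univ.filter fun i : Fin k => th (i, r) ∈ U).card + (miss th U r).card = k := by
      have := Finset.card_filter_add_card_filter_not (s := (univ : Finset (Fin k)))
        (fun i : Fin k => th (i, r) ∈ U)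
      rw [Finset.card_univ, Fintype.card_fin] at this
      have h4 : (miss th U r).card = (univ.filter fun i : Fin k => ¬ th (i, r) ∈ U).card := by
        congr 1
      omega
    omega
  have h2 : (k - 1) * M ≤ (univ.filter fun a : Fin k × Fin M => th a ∈ U).card := by
    calc (k - 1) * M = ∑ r : Fin M, (k - 1) := by simp [mul_comm]
      _ ≤ ∑ r : Fin M, (univ.filter fun i : Fin k => th (i, r) ∈ U).card :=
          Finset.sum_le_sum fun r _ => h1 r
      _ = (univ.filter fun a : Fin k × Fin M => th a ∈ U).card := by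
          simp only [Finset.card_filter]
          rw [Fintype.sum_prod_type_right]
  have h3 : (univ.filter fun a : Fin k × Fin M => th a ∈ U).card ≤ U.card := by
    apply Finset.card_le_card_of_injOn th
    · intro a ha
      simpa using ha
    · exact th.injective.injOn
  omega

/-- The hypothesis on the family of graphs: beyond a common gap the threads can be swapped. -/
def Swappable (th : Fin k × Fin M ↪ X) (G : Perm (Fin k) → SimpleGraph X) : Prop :=
  ∀ (π : Perm (Fin k)) (i j : Fin k) (r : Fin M), i ≠ j → ∀ x y : X, x ≠ th (i, r) →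
    x ≠ th (j, r) → y ≠ th (i, r) → y ≠ th (j, r) →
    ((G π).Adj x y ↔ (G (π * swap i j)).Adj (tau th i j r x) (tau th i j r y))

theorem sum_sign_zero [Fintype X] (th : Fin k × Fin M ↪ X) (G : Perm (Fin k) → SimpleGraph X)
    (hG : Swappable th G) (t : ℕ) (ht : t < (k - 1) * M) (F : SimpleGraph (Fin t)) :
    ∑ π : Perm (Fin k), (Perm.sign π : ℤ) * ((copies (G π) F).ncard : ℤ) = 0 := by
  classical
  set Ω : Finset (Perm (Fin k) × Finset X) := univ.filter fun ω =>
    (ω.2 : Set X) ∈ copies (G ω.1) F with hΩ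
  have hcount : ∀ π, (copies (G π) F).ncard =
      (univ.filter fun U : Finset X => (U : Set X) ∈ copies (G π) F).card := by
    intro π
    rw [← Set.ncard_coe_finset]
    apply Set.ncard_congr (fun S _ => S.toFinset)
    · intro S hS
      simpa using hS
    · intro S T _ _ h
      simpa using h
    · intro U hU
      refine ⟨(U : Set X), by simpa using hU, by simp⟩
  have hsum : ∑ π : Perm (Fin k), (Perm.sign π : ℤ) * ((copies (G π) F).ncard : ℤ) =
      ∑ ω ∈ Ω, (Perm.sign ω.1 : ℤ) := by
    rw [hΩ, Finset.sum_filter, Fintype.sum_prod_type]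
    apply Finset.sum_congr rfl
    intro π _
    rw [hcount, Finset.card_filter]
    push_cast
    rw [Finset.mul_sum]
    apply Finset.sum_congr rfl
    intro U _
    split_ifs <;> simp
  rw [hsum]
  have hgood : ∀ ω ∈ Ω, ∃ a, Good th ω.2 a := by
    intro ω hω
    rw [hΩ, Finset.mem_filter] at hω
    apply exists_good
    apply exists_miss
    have := hω.2.1
    rw [Set.ncard_coe_finset] at this
    omega
  let g : ∀ ω ∈ Ω, Perm (Fin k) × Finset X := fun ω hω =>
    (ω.1 * swap (hgood ω hω).choose.2.1 (hgood ω hω).choose.2.2,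
      ω.2.map (tau th (hgood ω hω).choose.2.1 (hgood ω hω).choose.2.2
        (hgood ω hω).choose.1).toEmbedding)
  have hg : ∀ ω (hω : ω ∈ Ω) (a : Fin M × Fin k × Fin k), Good th ω.2 a →
      g ω hω = (ω.1 * swap a.2.1 a.2.2, ω.2.map (tau th a.2.1 a.2.2 a.1).toEmbedding) := by
    intro ω hω a ha
    have := (hgood ω hω).choose_spec.unique ha
    show (ω.1 * swap (hgood ω hω).choose.2.1 (hgood ω hω).choose.2.2,
      ω.2.map (tau th (hgood ω hω).choose.2.1 (hgood ω hω).choose.2.2
        (hgood ω hω).choose.1).toEmbedding) = _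
    rw [this]
  have hmem : ∀ ω (hω : ω ∈ Ω), g ω hω ∈ Ω := by
    intro ω hω
    obtain ⟨a, ha⟩ := hgood ω hω
    rw [hg ω hω a ha]
    have hω' := hω
    rw [hΩ, Finset.mem_filter] at hω' ⊢
    refine ⟨Finset.mem_univ _, ?_, ?_⟩
    · rw [Set.ncard_coe_finset, Finset.card_map, ← Set.ncard_coe_finset]
      exact hω'.2.1
    · obtain ⟨e⟩ := hω'.2.2
      obtain ⟨hi, hj, hij⟩ := pairOf_spec ha.2.2
      rw [mem_miss] at hi hj
      have e' : (G ω.1).induce (ω.2 : Set X) ≃g
          (G (ω.1 * swap a.2.1 a.2.2)).induce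
            ((ω.2.map (tau th a.2.1 a.2.2 a.1).toEmbedding : Finset X) : Set X) := by
        refine ⟨(Equiv.subtypeEquiv (tau th a.2.1 a.2.2 a.1) ?_), ?_⟩
        · intro x
          constructor
          · intro hx
            exact Finset.mem_coe.2 (Finset.mem_map.2 ⟨x, hx, rfl⟩)
          · intro hx
            obtain ⟨y, hy, he⟩ := Finset.mem_map.1 (Finset.mem_coe.1 hx)
            have : y = x := (tau th a.2.1 a.2.2 a.1).injective he
            rw [← this]
            exact hy
        · rintro ⟨x, hx⟩ ⟨y, hy⟩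
          have hx' : x ∈ ω.2 := hx
          have hy' : y ∈ ω.2 := hy
          exact (hG ω.1 a.2.1 a.2.2 a.1 hij x y (fun h => hi (h ▸ hx')) (fun h => hj (h ▸ hx'))
            (fun h => hi (h ▸ hy')) (fun h => hj (h ▸ hy'))).symm
      exact ⟨e'.symm.trans e⟩
  refine Finset.sum_involution g ?_ ?_ hmem ?_
  · intro ω hω
    obtain ⟨a, ha⟩ := hgood ω hω
    rw [hg ω hω a ha]
    obtain ⟨hi, hj, hij⟩ := pairOf_spec ha.2.2
    show (Perm.sign ω.1 : ℤ) + (Perm.sign (ω.1 * swap a.2.1 a.2.2) : ℤ) = 0
    rw [Perm.sign_mul, Perm.sign_swap hij]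
    simp
  · intro ω hω _
    obtain ⟨a, ha⟩ := hgood ω hω
    rw [hg ω hω a ha]
    obtain ⟨hi, hj, hij⟩ := pairOf_spec ha.2.2
    intro h
    have h1 := congrArg Prod.fst h
    simp only [mul_eq_left, swap_eq_one_iff] at h1
    exact hij h1
  · intro ω hω
    obtain ⟨a, ha⟩ := hgood ω hω
    have h1 := hg ω hω a ha
    have h2 : Good th (g ω hω).2 a := by
      rw [h1]
      exact ha.map
    rw [hg (g ω hω) (hmem ω hω) a h2, h1]
    apply Prod.ext
    · simp [mul_assoc]
    · ext x
      simp only [Finset.mem_map, Equiv.coe_toEmbedding, exists_exists_and_eq_and, tau_tau]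
      simp

/-- If in addition `G π` depends up to isomorphism on the sign of `π` only, then all the graphs
`G π` have the same `t`-vertex deck. -/
theorem sameDeck [Fintype X] (th : Fin k × Fin M ↪ X) (G : Perm (Fin k) → SimpleGraph X)
    (hG : Swappable th G)
    (hsign : ∀ π π' : Perm (Fin k), Perm.sign π = Perm.sign π' → Nonempty (G π ≃g G π'))
    (t : ℕ) (ht : t < (k - 1) * M) (π π' : Perm (Fin k)) : SameDeck (G π) (G π') t := by
  classical
  intro F
  by_cases hs : Perm.sign π = Perm.sign π'
  · obtain ⟨φ⟩ := hsign π π' hs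
    exact copies_ncard_of_iso φ F
  have h0 := sum_sign_zero th G hG t ht F
  set f : Perm (Fin k) → ℤ := fun ρ => (Perm.sign ρ : ℤ) * ((copies (G ρ) F).ncard : ℤ) with hf
  have h1 : ∑ ρ, f (ρ * (π⁻¹ * π')) = ∑ ρ, f ρ := Equiv.sum_comp (Equiv.mulRight (π⁻¹ * π')) f
  have hN : ∀ ρ, Perm.sign ρ = Perm.sign π → (copies (G ρ) F).ncard = (copies (G π) F).ncard := by
    intro ρ h
    obtain ⟨φ⟩ := hsign ρ π h
    exact copies_ncard_of_iso φ F
  have hN' : ∀ ρ, Perm.sign ρ = Perm.sign π' →
      (copies (G ρ) F).ncard = (copies (G π') F).ncard := by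
    intro ρ h
    obtain ⟨φ⟩ := hsign ρ π' h
    exact copies_ncard_of_iso φ F
  have hneg : Perm.sign π' = - Perm.sign π := by
    rcases Int.units_eq_one_or (Perm.sign π) with h4 | h4 <;>
    rcases Int.units_eq_one_or (Perm.sign π') with h5 | h5 <;>
    simp_all
  have hval : ∀ ρ, f ρ + f (ρ * (π⁻¹ * π')) =
      (Perm.sign π : ℤ) * (((copies (G π) F).ncard : ℤ) - (copies (G π') F).ncard) := by
    intro ρ
    have hs2 : Perm.sign (ρ * (π⁻¹ * π')) = - Perm.sign ρ := by
      rw [Perm.sign_mul, Perm.sign_mul, Perm.sign_inv, hneg]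
      simp
    rcases Int.units_eq_one_or (Perm.sign ρ * Perm.sign π) with h | h
    · have h2 : Perm.sign ρ = Perm.sign π := by
        rcases Int.units_eq_one_or (Perm.sign π) with h4 | h4 <;>
        rcases Int.units_eq_one_or (Perm.sign ρ) with h5 | h5 <;>
        simp_all
      have h3 : Perm.sign (ρ * (π⁻¹ * π')) = Perm.sign π' := by rw [hs2, h2, hneg]
      simp only [hf]
      rw [hN ρ h2, hN' _ h3, h2, h3, hneg]
      push_cast
      ring
    · have h2 : Perm.sign ρ = Perm.sign π' := by
        rcases Int.units_eq_one_or (Perm.sign π) with h4 | h4 <;>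
        rcases Int.units_eq_one_or (Perm.sign ρ) with h5 | h5 <;>
        simp_all
      have h3 : Perm.sign (ρ * (π⁻¹ * π')) = Perm.sign π := by rw [hs2, h2, hneg]; simp
      simp only [hf]
      rw [hN' ρ h2, hN _ h3, h2, h3, hneg]
      push_cast
      ring
  have h2 : ∑ ρ, (f ρ + f (ρ * (π⁻¹ * π'))) = 0 := by
    rw [Finset.sum_add_distrib, h1, h0]; ring
  rw [Finset.sum_congr rfl fun ρ _ => hval ρ, Finset.sum_const, Finset.card_univ, nsmul_eq_mul]
    at h2
  have h3 : (Fintype.card (Perm (Fin k)) : ℤ) ≠ 0 := by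
    have := Fintype.card_pos (α := Perm (Fin k))
    omega
  have h4 := (mul_eq_zero.1 h2).resolve_left h3
  have h5 : (Perm.sign π : ℤ) ≠ 0 := by
    rcases Int.units_eq_one_or (Perm.sign π) with h | h <;> rw [h] <;> simp
  have h6 := (mul_eq_zero.1 h4).resolve_left h5
  omega

end Pool.Agent.X62.HD
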