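import Pool.Agent.X62.HD.Und
import Pool.Agent.X62.HD.Deck

/-!
# The digraphs `D π`

The core has vertices `z`, `v j`, `u i` and for each even permutation `σ` the lines
`c σ j`, `d σ j`, `b σ j`. There are `k` threads; the thread `i` leads from `u i` to `v (π i)`, or to
`z` if `π i = 0`.
-/

open Equiv

namespace Pool.Agent.X62.HD

/-- vertices of the core -/
inductive Core (k : ℕ)
  | z : Core k
  | v (j : Fin k) : Core k
  | c (σ : alternatingGroup (Fin k)) (j : Fin k) : Core k
  | d (σ : alternatingGroup (Fin k)) (j : Fin k) : Core k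
  | b (σ : alternatingGroup (Fin k)) (j : Fin k) : Core k
  | u (i : Fin k) : Core k

instance (k : ℕ) : Finite (Core k) := by
  let f : Core k → (Fin 6 × Option (alternatingGroup (Fin k)) × Option (Fin k)) := fun x =>
    match x with
    | .z => (0, none, none)
    | .v j => (1, none, some j)
    | .c σ j => (2, some σ, some j)
    | .d σ j => (3, some σ, some j)
    | .b σ j => (4, some σ, some j)
    | .u i => (5, none, some i)
  apply Finite.of_injective f
  intro x y h
  cases x <;> cases y <;> simp_all [f]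

/-- vertices of the digraph -/
abbrev Y (k L : ℕ) := Core k ⊕ (Fin k × Fin L)

/-- arcs -/
def Arc {k L : ℕ} (π : Perm (Fin k)) : Y k L → Y k L → Prop
  | .inl .z, .inl (.b _ j) => j.val = 0
  | .inl (.v j), .inl (.c _ j') => j' = j
  | .inl (.c σ j), .inl (.d σ' j') => σ' = σ ∧ j' = j
  | .inl (.c σ j), .inl (.b σ' j') =>
      (σ' = σ ∧ j'.val = j.val + 1) ∨ (j.val + 1 = k ∧ j'.val = 0)
  | .inl (.c _ j), .inl (.v j') => j.val + 1 = k ∧ j'.val = 0
  | .inl (.d σ j), .inl (.b σ' j') => σ' = σ ∧ j' = j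
  | .inl (.d σ j), .inl (.c σ' j') => σ' = σ ∧ j' = j
  | .inl (.b σ j), .inl (.d σ' j') => σ' = σ ∧ j' = j
  | .inl (.b σ j), .inl (.u i) => (σ : Perm (Fin k)) i = j
  | .inl (.u i), .inr (i', s) => i' = i ∧ s.val = 0
  | .inr (i, s), .inr (i', s') => i' = i ∧ s'.val = s.val + 1
  | .inr (i, s), .inl .z => s.val + 1 = L ∧ (π i).val = 0
  | .inr (i, s), .inl (.v j) => s.val + 1 = L ∧ π i = j ∧ j.val ≠ 0
  | _, _ => False

section nonexistence

variable {k L : ℕ} {π : Perm (Fin k)} {g : Y k L → Y k L}

/-- In a Hamiltonian arrangement the permutation `π` has the sign of a full cycle. -/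
theorem sign_of_ham (hk : 0 < k) (hL : 0 < L) (hbij : Function.Bijective g)
    (hg : ∀ y, Arc π y (g y))
    (htr : ∀ S : Set (Y k L), S.Nonempty → (∀ y ∈ S, g y ∈ S) → S = Set.univ) :
    Perm.sign π = -(-1) ^ k := by
  classical
  have hinj := hbij.1
  have hsurj := hbij.2
  set o : Fin k := ⟨0, hk⟩ with ho
  -- no 2-cycles
  have no2 : ∀ x y, g x = y → g y = x → False := by
    intro x y hxy hyx
    have h := htr {x, y} ⟨x, by simp⟩ (by
      rintro w (rfl | hw)
      · rw [hxy]; simp
      · rw [Set.mem_singleton_iff] at hw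
        rw [hw, hyx]; simp)
    have hz : (Sum.inl .z : Y k L) ∈ ({x, y} : Set (Y k L)) := by rw [h]; trivial
    have hv : (Sum.inl (.v o) : Y k L) ∈ ({x, y} : Set (Y k L)) := by rw [h]; trivial
    have hu : (Sum.inl (.u o) : Y k L) ∈ ({x, y} : Set (Y k L)) := by rw [h]; trivial
    simp only [Set.mem_insert_iff, Set.mem_singleton_iff] at hz hv hu
    rcases hz with hz | hz <;> rcases hv with hv | hv <;> rcases hu with hu | hu <;>
      first
      | (have := hz.trans hv.symm; simp at this; done)
      | (have := hz.trans hu.symm; simp at this; done)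
      | (have := hv.trans hu.symm; simp at this; done)
  -- out-arcs
  have out_z : ∃ σ, g (.inl .z) = .inl (.b σ o) := by
    have := hg (.inl .z)
    rcases h : g (.inl .z) with (_ | j | ⟨σ, j⟩ | ⟨σ, j⟩ | ⟨σ, j⟩ | i) | ⟨i, s⟩ <;> rw [h] at this <;>
      simp only [Arc] at this
    exact ⟨σ, by congr 2; exact Fin.ext this⟩
  have out_v : ∀ j, ∃ σ, g (.inl (.v j)) = .inl (.c σ j) := by
    intro j
    have := hg (.inl (.v j))
    rcases h : g (.inl (.v j)) with (_ | j' | ⟨σ, j'⟩ | ⟨σ, j'⟩ | ⟨σ, j'⟩ | i) | ⟨i, s⟩ <;>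
      rw [h] at this <;> simp only [Arc] at this
    exact ⟨σ, by rw [this]⟩
  have out_d : ∀ σ j, g (.inl (.d σ j)) = .inl (.b σ j) ∨ g (.inl (.d σ j)) = .inl (.c σ j) := by
    intro σ j
    have := hg (.inl (.d σ j))
    rcases h : g (.inl (.d σ j)) with (_ | j' | ⟨σ', j'⟩ | ⟨σ', j'⟩ | ⟨σ', j'⟩ | i) | ⟨i, s⟩ <;>
      rw [h] at this <;> simp only [Arc] at this
    · right; rw [this.1, this.2]
    · left; rw [this.1, this.2]
  have out_b : ∀ σ j, g (.inl (.b σ j)) = .inl (.u ((σ : Perm (Fin k))⁻¹ j)) ∨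
      g (.inl (.b σ j)) = .inl (.d σ j) := by
    intro σ j
    have := hg (.inl (.b σ j))
    rcases h : g (.inl (.b σ j)) with (_ | j' | ⟨σ', j'⟩ | ⟨σ', j'⟩ | ⟨σ', j'⟩ | i) | ⟨i, s⟩ <;>
      rw [h] at this <;> simp only [Arc] at this
    · right; rw [this.1, this.2]
    · left; rw [← this]; simp
  -- in-arcs
  have in_c : ∀ σ j x, g x = .inl (.c σ j) → x = .inl (.v j) ∨ x = .inl (.d σ j) := by
    intro σ j x hx
    have := hg x
    rw [hx] at this
    rcases x with (_ | j' | ⟨σ', j'⟩ | ⟨σ', j'⟩ | ⟨σ', j'⟩ | i) | ⟨i, s⟩ <;>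
      simp only [Arc] at this
    · left; rw [this]
    · right; rw [this.1, this.2]
  have in_d : ∀ σ j x, g x = .inl (.d σ j) → x = .inl (.c σ j) ∨ x = .inl (.b σ j) := by
    intro σ j x hx
    have := hg x
    rw [hx] at this
    rcases x with (_ | j' | ⟨σ', j'⟩ | ⟨σ', j'⟩ | ⟨σ', j'⟩ | i) | ⟨i, s⟩ <;>
      simp only [Arc] at this
    · left; rw [this.1, this.2]
    · right; rw [this.1, this.2]
  have in_b : ∀ σ j x, g x = .inl (.b σ j) → 0 < j.val → x = .inl (.d σ j) ∨
      ∃ j' : Fin k, j.val = j'.val + 1 ∧ x = .inl (.c σ j') := by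
    intro σ j x hx hj
    have := hg x
    rw [hx] at this
    rcases x with (_ | j' | ⟨σ', j'⟩ | ⟨σ', j'⟩ | ⟨σ', j'⟩ | i) | ⟨i, s⟩ <;>
      simp only [Arc] at this
    · omega
    · rcases this with ⟨h1, h2⟩ | ⟨h1, h2⟩
      · right; exact ⟨j', h2, by rw [h1]⟩
      · omega
    · left; rw [this.1, this.2]
  obtain ⟨σ0, hσ0⟩ := out_v o
  -- line j of σ0 is traversed straight
  have hline : ∀ m (hm : m < k), g (.inl (.d σ0 ⟨m, hm⟩)) = .inl (.b σ0 ⟨m, hm⟩) := by
    intro m
    induction m with
    | zero =>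
      intro hm
      rcases out_d σ0 ⟨0, hm⟩ with h | h
      · exact h
      · exfalso
        have := hinj (hσ0.trans h.symm)
        simp at this
    | succ m ih =>
      intro hm
      rcases out_d σ0 ⟨m + 1, hm⟩ with h | h
      · exact h
      · exfalso
        obtain ⟨x, hx⟩ := hsurj (.inl (.b σ0 ⟨m + 1, hm⟩))
        rcases in_b _ _ _ hx (Nat.succ_pos m) with h1 | ⟨j', h1, h2⟩
        · rw [h1, h] at hx
          simp at hx
        · have hj' : j' = ⟨m, by omega⟩ := Fin.ext (by simpa using h1.symm)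
          rw [h2, hj'] at hx
          have ih' := ih (by omega)
          obtain ⟨y, hy⟩ := hsurj (.inl (.d σ0 ⟨m, by omega⟩))
          rcases in_d _ _ _ hy with h3 | h3
          · rw [h3, hx] at hy
            simp at hy
          · rw [h3] at hy
            exact no2 _ _ hy ih'
  have hline' : ∀ j, g (.inl (.d σ0 j)) = .inl (.b σ0 j) := fun j => hline j.val j.isLt
  have hv : ∀ j, g (.inl (.v j)) = .inl (.c σ0 j) := by
    intro j
    obtain ⟨x, hx⟩ := hsurj (.inl (.c σ0 j))
    rcases in_c _ _ _ hx with h | h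
    · rw [← h, hx]
    · rw [h, hline'] at hx
      simp at hx
  have hc : ∀ j, g (.inl (.c σ0 j)) = .inl (.d σ0 j) := by
    intro j
    obtain ⟨x, hx⟩ := hsurj (.inl (.d σ0 j))
    rcases in_d _ _ _ hx with h | h
    · rw [← h, hx]
    · rw [h] at hx
      exact (no2 _ _ hx (hline' j)).elim
  have hb : ∀ j, g (.inl (.b σ0 j)) = .inl (.u ((σ0 : Perm (Fin k))⁻¹ j)) := by
    intro j
    rcases out_b σ0 j with h | h
    · exact h
    · have := hinj (h.trans (hc j).symm)
      simp at this
  have hd' : ∀ σ j, σ ≠ σ0 → g (.inl (.d σ j)) = .inl (.c σ j) := by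
    intro σ j hσ
    obtain ⟨x, hx⟩ := hsurj (.inl (.c σ j))
    rcases in_c _ _ _ hx with h | h
    · rw [h, hv] at hx
      simp at hx
      exact (hσ hx.symm).elim
    · rw [← h, hx]
  have hb' : ∀ σ j, σ ≠ σ0 → g (.inl (.b σ j)) = .inl (.d σ j) := by
    intro σ j hσ
    rcases out_b σ j with h | h
    · exfalso
      have h1 := hb ((σ0 : Perm (Fin k)) ((σ : Perm (Fin k))⁻¹ j))
      have h2 : (σ0 : Perm (Fin k))⁻¹ ((σ0 : Perm (Fin k)) ((σ : Perm (Fin k))⁻¹ j)) =
          (σ : Perm (Fin k))⁻¹ j := by simp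
      rw [h2] at h1
      have h3 := hinj (h.trans h1.symm)
      simp at h3
      exact hσ h3.1
    · exact h
  -- the first return map
  set F : Perm (Fin k) := π * (σ0 : Perm (Fin k))⁻¹ with hF
  have hFtr : ∀ J : Set (Fin k), J.Nonempty → (∀ j ∈ J, F j ∈ J) → J = Set.univ := by
    intro J hJ hcl
    let S : Set (Y k L) := {y | match y with
      | .inl .z => o ∈ J
      | .inl (.v j) => j ∈ J
      | .inl (.c σ j) => if σ = σ0 then j ∈ J else o ∈ J
      | .inl (.d σ j) => if σ = σ0 then j ∈ J else o ∈ J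
      | .inl (.b σ j) => if σ = σ0 then j ∈ J else o ∈ J
      | .inl (.u i) => (σ0 : Perm (Fin k)) i ∈ J
      | .inr (i, _) => (σ0 : Perm (Fin k)) i ∈ J}
    have hS : S = Set.univ := by
      apply htr
      · obtain ⟨j, hj⟩ := hJ
        exact ⟨.inl (.v j), hj⟩
      · rintro ((_ | j | ⟨σ, j⟩ | ⟨σ, j⟩ | ⟨σ, j⟩ | i) | ⟨i, s⟩) hy
        · have hy' : o ∈ J := hy
          obtain ⟨σ, hσ⟩ := out_z
          rw [hσ]
          show if σ = σ0 then o ∈ J else o ∈ J
          split_ifs <;> exact hy'
        · have hy' : j ∈ J := hy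
          rw [hv]
          show if σ0 = σ0 then j ∈ J else o ∈ J
          rw [if_pos rfl]; exact hy'
        · have hy' : if σ = σ0 then j ∈ J else o ∈ J := hy
          by_cases hσ : σ = σ0
          · rw [if_pos hσ] at hy'
            rw [hσ, hc]
            show if σ0 = σ0 then j ∈ J else o ∈ J
            rw [if_pos rfl]; exact hy'
          · rw [if_neg hσ] at hy'
            have harc := hg (.inl (.c σ j))
            rcases h : g (.inl (.c σ j)) with
              (_ | j' | ⟨σ', j'⟩ | ⟨σ', j'⟩ | ⟨σ', j'⟩ | i) | ⟨i, s⟩ <;>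
              rw [h] at harc <;> simp only [Arc] at harc
            · show j' ∈ J
              have : j' = o := Fin.ext harc.2
              rw [this]; exact hy'
            · show if σ' = σ0 then j' ∈ J else o ∈ J
              rw [harc.1, if_neg hσ]; exact hy'
            · show if σ' = σ0 then j' ∈ J else o ∈ J
              rcases harc with h1 | h1
              · rw [h1.1, if_neg hσ]; exact hy'
              · have : j' = o := Fin.ext h1.2
                rw [this]
                split_ifs <;> exact hy'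
        · have hy' : if σ = σ0 then j ∈ J else o ∈ J := hy
          by_cases hσ : σ = σ0
          · rw [if_pos hσ] at hy'
            rw [hσ, hline']
            show if σ0 = σ0 then j ∈ J else o ∈ J
            rw [if_pos rfl]; exact hy'
          · rw [hd' σ j hσ]
            exact hy'
        · have hy' : if σ = σ0 then j ∈ J else o ∈ J := hy
          by_cases hσ : σ = σ0
          · rw [if_pos hσ] at hy'
            rw [hσ, hb]
            show (σ0 : Perm (Fin k)) ((σ0 : Perm (Fin k))⁻¹ j) ∈ J
            simpa using hy'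
          · rw [hb' σ j hσ]
            exact hy'
        · have hy' : (σ0 : Perm (Fin k)) i ∈ J := hy
          have harc := hg (.inl (.u i))
          rcases h : g (.inl (.u i)) with
              (_ | j' | ⟨σ', j'⟩ | ⟨σ', j'⟩ | ⟨σ', j'⟩ | i') | ⟨i', s⟩ <;>
              rw [h] at harc <;> simp only [Arc] at harc
          show (σ0 : Perm (Fin k)) i' ∈ J
          rw [harc.1]; exact hy'
        · have hy' : (σ0 : Perm (Fin k)) i ∈ J := hy
          have harc := hg (.inr (i, s))
          have hFi : F ((σ0 : Perm (Fin k)) i) = π i := by simp [hF]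
          rcases h : g (.inr (i, s)) with
              (_ | j' | ⟨σ', j'⟩ | ⟨σ', j'⟩ | ⟨σ', j'⟩ | i') | ⟨i', s⟩ <;>
              rw [h] at harc <;> simp only [Arc] at harc
          · show o ∈ J
            have h1 := hcl _ hy'
            rw [hFi] at h1
            have : π i = o := Fin.ext harc.2
            rwa [this] at h1
          · show j' ∈ J
            have h1 := hcl _ hy'
            rw [hFi, harc.2.1] at h1
            exact h1
          · show (σ0 : Perm (Fin k)) i' ∈ J
            rw [harc.1]; exact hy'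
    apply Set.eq_univ_of_forall
    intro j
    have : (Sum.inl (.v j) : Y k L) ∈ S := by rw [hS]; trivial
    exact this
  have hsame : ∀ j, F.SameCycle o j := by
    intro j
    have : {j | F.SameCycle o j} = Set.univ := by
      apply hFtr
      · exact ⟨o, Perm.SameCycle.refl F o⟩
      · intro j hj
        exact Perm.sameCycle_apply_right.2 hj
    have h2 : j ∈ {j | F.SameCycle o j} := by rw [this]; trivial
    exact h2
  have hsignF : Perm.sign F = Perm.sign π := by
    have : Perm.sign (σ0 : Perm (Fin k)) = 1 := σ0.2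
    rw [hF, Perm.sign_mul, Perm.sign_inv, this, mul_one]
  by_cases hk1 : k = 1
  · subst hk1
    have : π = 1 := Subsingleton.elim _ _
    rw [this]; simp
  have hcyc : F.IsCycle := by
    refine ⟨o, ?_, fun y _ => hsame y⟩
    intro hfix
    have : ({o} : Set (Fin k)) = Set.univ := by
      apply hFtr
      · exact ⟨o, rfl⟩
      · intro j hj
        rw [Set.mem_singleton_iff] at hj
        rw [hj, hfix]; rfl
    have h2 : (⟨1, by omega⟩ : Fin k) ∈ ({o} : Set (Fin k)) := by rw [this]; trivial
    rw [Set.mem_singleton_iff, ho] at h2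
    simp at h2
  have hsupp : F.support = Finset.univ := by
    ext j
    simp only [Perm.mem_support, Finset.mem_univ, iff_true]
    intro hj
    obtain ⟨x, hx, -⟩ := hcyc
    have h1 : F.SameCycle j x := (hsame j).symm.trans (hsame x)
    exact hx ((h1.apply_eq_self_iff).1 hj)
  rw [← hsignF, hcyc.sign, hsupp, Finset.card_univ, Fintype.card_fin]

end nonexistence

end Pool.Agent.X62.HD
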