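import Pool.Agent.X62.HD.Swap

/-!
# A Hamilton cycle when `π` is a full cycle
-/

open Equiv

namespace Pool.Agent.X62.HD

theorem finRotate_closed (n : ℕ) (J : Set (Fin (n + 1))) (h0 : (0 : Fin (n + 1)) ∈ J)
    (hcl : ∀ j ∈ J, finRotate (n + 1) j ∈ J) : J = Set.univ := by
  apply Set.eq_univ_of_forall
  intro j
  induction j using Fin.induction with
  | zero => exact h0
  | succ i ih =>
    have := hcl _ ih
    rw [finRotate_apply, Fin.coeSucc_eq_succ] at this
    exact this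

/-- A cyclic permutation of a finite type. -/
theorem exists_cyclic {α : Type} [Finite α] (a : α) :
    ∃ ρ : Perm α, ∀ J : Set α, a ∈ J → (∀ x ∈ J, ρ x ∈ J) → J = Set.univ := by
  classical
  obtain ⟨n, ⟨e⟩⟩ := Finite.exists_equiv_fin α
  cases n with
  | zero => exact (e a).elim0
  | succ n =>
    let e' : α ≃ Fin (n + 1) := e.trans (swap (e a) 0)
    have he' : e' a = 0 := by simp [e']
    refine ⟨(e'.trans (finRotate (n + 1))).trans e'.symm, ?_⟩
    intro J ha hcl
    have h1 : (e' '' J) = Set.univ := by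
      apply finRotate_closed
      · exact ⟨a, ha, he'⟩
      · rintro _ ⟨x, hx, rfl⟩
        exact ⟨_, hcl x hx, by simp⟩
    apply Set.eq_univ_of_forall
    intro x
    have h2 : e' x ∈ e' '' J := by rw [h1]; trivial
    obtain ⟨y, hy, hxy⟩ := h2
    rwa [← e'.injective hxy]

open Classical in
/-- the cyclic arrangement -/
noncomputable def gg {k L : ℕ} (π : Perm (Fin k)) (hk : 0 < k) (hL : 0 < L)
    (ρ : Perm (alternatingGroup (Fin k))) : Y k L → Y k L
  | .inl .z => .inl (.b (ρ 1) ⟨0, hk⟩)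
  | .inl (.v j) => .inl (.c 1 j)
  | .inl (.c σ j) =>
      if σ = 1 then .inl (.d 1 j)
      else if h : j.val + 1 < k then .inl (.b σ ⟨j.val + 1, h⟩)
      else if ρ σ = 1 then .inl (.v ⟨0, hk⟩) else .inl (.b (ρ σ) ⟨0, hk⟩)
  | .inl (.d σ j) => if σ = 1 then .inl (.b 1 j) else .inl (.c σ j)
  | .inl (.b σ j) => if σ = 1 then .inl (.u j) else .inl (.d σ j)
  | .inl (.u i) => .inr (i, ⟨0, hL⟩)
  | .inr (i, s) =>
      if h : s.val + 1 < L then .inr (i, ⟨s.val + 1, h⟩)
      else if (π i).val = 0 then .inl .z else .inl (.v (π i))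

variable {k L : ℕ} {π : Perm (Fin k)} {hk : 0 < k} {hL : 0 < L}
  {ρ : Perm (alternatingGroup (Fin k))}

theorem gg_arc (y : Y k L) : Arc π y (gg π hk hL ρ y) := by
  rcases y with (_ | j | ⟨σ, j⟩ | ⟨σ, j⟩ | ⟨σ, j⟩ | i) | ⟨i, s⟩ <;> simp only [gg]
  · simp [Arc]
  · simp [Arc]
  · by_cases h1 : σ = 1
    · rw [if_pos h1, h1]; simp [Arc]
    · rw [if_neg h1]
      by_cases h2 : j.val + 1 < k
      · rw [dif_pos h2]; simp [Arc]
      · rw [dif_neg h2]
        have h4 : j.val + 1 = k := by omega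
        by_cases h3 : ρ σ = 1
        · rw [if_pos h3]; exact ⟨h4, rfl⟩
        · rw [if_neg h3]; exact Or.inr ⟨h4, rfl⟩
  · by_cases h1 : σ = 1
    · rw [if_pos h1, h1]; simp [Arc]
    · rw [if_neg h1]; simp [Arc]
  · by_cases h1 : σ = 1
    · rw [if_pos h1, h1]; simp [Arc]
    · rw [if_neg h1]; simp [Arc]
  · simp [Arc]
  · by_cases h2 : s.val + 1 < L
    · rw [dif_pos h2]; simp [Arc]
    · rw [dif_neg h2]
      have h4 : s.val + 1 = L := by omega
      by_cases h3 : (π i).val = 0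
      · rw [if_pos h3]; exact ⟨h4, h3⟩
      · rw [if_neg h3]; exact ⟨h4, rfl, h3⟩

/-- the hypotheses on the permutations -/
structure Cyc (π : Perm (Fin k)) (hk : 0 < k) (ρ : Perm (alternatingGroup (Fin k))) : Prop where
  ne : ρ 1 ≠ 1
  cl : ∀ J : Set (alternatingGroup (Fin k)), 1 ∈ J → (∀ x ∈ J, ρ x ∈ J) → J = Set.univ
  clπ : ∀ J : Set (Fin k), ⟨0, hk⟩ ∈ J → (∀ x ∈ J, π x ∈ J) → J = Set.univ

theorem Cyc.inv_ne (h : Cyc π hk ρ) : ρ⁻¹ 1 ≠ 1 := by
  intro h1
  apply h.ne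
  have := congrArg ρ h1
  simpa using this.symm

theorem gg_surj (h : Cyc π hk ρ) : Function.Surjective (gg (L := L) π hk hL ρ) := by
  rintro ((_ | j | ⟨σ, j⟩ | ⟨σ, j⟩ | ⟨σ, j⟩ | i) | ⟨i, s⟩)
  · refine ⟨.inr (π⁻¹ ⟨0, hk⟩, ⟨L - 1, by omega⟩), ?_⟩
    simp only [gg]
    rw [dif_neg (by omega), if_pos (by simp)]
  · by_cases hj : j.val = 0
    · refine ⟨.inl (.c (ρ⁻¹ 1) ⟨k - 1, by omega⟩), ?_⟩
      simp only [gg]
      rw [if_neg h.inv_ne, dif_neg (by omega), if_pos (by simp)]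
      congr 2
      exact Fin.ext hj.symm
    · refine ⟨.inr (π⁻¹ j, ⟨L - 1, by omega⟩), ?_⟩
      simp only [gg]
      rw [dif_neg (by omega), if_neg (by simpa using hj)]
      simp
  · by_cases hσ : σ = 1
    · exact ⟨.inl (.v j), by simp only [gg]; rw [hσ]⟩
    · exact ⟨.inl (.d σ j), by simp only [gg]; rw [if_neg hσ]⟩
  · by_cases hσ : σ = 1
    · exact ⟨.inl (.c σ j), by simp only [gg]; rw [if_pos hσ, hσ]⟩
    · exact ⟨.inl (.b σ j), by simp only [gg]; rw [if_neg hσ]⟩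
  · by_cases hσ : σ = 1
    · exact ⟨.inl (.d σ j), by simp only [gg]; rw [if_pos hσ, hσ]⟩
    · by_cases hj : j.val = 0
      · have hj' : j = ⟨0, hk⟩ := Fin.ext hj
        by_cases hρ : ρ⁻¹ σ = 1
        · refine ⟨.inl .z, ?_⟩
          simp only [gg]
          rw [← hρ, hj']
          simp
        · refine ⟨.inl (.c (ρ⁻¹ σ) ⟨k - 1, by omega⟩), ?_⟩
          simp only [gg]
          rw [if_neg hρ, dif_neg (by omega), if_neg (by simpa using hσ), hj']
          simp
      · refine ⟨.inl (.c σ ⟨j.val - 1, by omega⟩), ?_⟩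
        simp only [gg]
        rw [if_neg hσ, dif_pos (by omega)]
        congr 2
        apply Fin.ext
        simp only
        omega
  · exact ⟨.inl (.b 1 i), by simp only [gg, if_true]⟩
  · by_cases hs : s.val = 0
    · refine ⟨.inl (.u i), ?_⟩
      simp only [gg]
      congr 2
      exact Fin.ext hs.symm
    · refine ⟨.inr (i, ⟨s.val - 1, by omega⟩), ?_⟩
      simp only [gg]
      rw [dif_pos (by omega)]
      congr 2
      apply Fin.ext
      simp only
      omega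

theorem gg_trans (h : Cyc π hk ρ) (S : Set (Y k L)) (hz : (.inl .z : Y k L) ∈ S)
    (hcl : ∀ y ∈ S, gg π hk hL ρ y ∈ S) : S = Set.univ := by
  classical
  -- folded lines
  have hfold : ∀ σ : alternatingGroup (Fin k), σ ≠ 1 → (.inl (.b σ ⟨0, hk⟩) : Y k L) ∈ S →
      ∀ m (hm : m < k), (.inl (.b σ ⟨m, hm⟩) : Y k L) ∈ S ∧ (.inl (.d σ ⟨m, hm⟩) : Y k L) ∈ S ∧
        (.inl (.c σ ⟨m, hm⟩) : Y k L) ∈ S := by
    intro σ hσ hb m
    have hstep : ∀ j, (.inl (.b σ j) : Y k L) ∈ S → (.inl (.b σ j) : Y k L) ∈ S ∧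
        (.inl (.d σ j) : Y k L) ∈ S ∧ (.inl (.c σ j) : Y k L) ∈ S := by
      intro j hj
      have h1 := hcl _ hj
      simp only [gg] at h1
      rw [if_neg hσ] at h1
      have h2 := hcl _ h1
      simp only [gg] at h2
      rw [if_neg hσ] at h2
      exact ⟨hj, h1, h2⟩
    induction m with
    | zero => intro hm; exact hstep _ hb
    | succ m ih =>
      intro hm
      have h1 := hcl _ (ih (by omega)).2.2
      simp only [gg] at h1
      rw [if_neg hσ, dif_pos hm] at h1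
      exact hstep _ h1
  have hfold' : ∀ σ : alternatingGroup (Fin k), σ ≠ 1 → (.inl (.b σ ⟨0, hk⟩) : Y k L) ∈ S →
      (ρ σ = 1 → (.inl (.v ⟨0, hk⟩) : Y k L) ∈ S) ∧
      (ρ σ ≠ 1 → (.inl (.b (ρ σ) ⟨0, hk⟩) : Y k L) ∈ S) := by
    intro σ hσ hb
    have h1 := hcl _ (hfold σ hσ hb (k - 1) (by omega)).2.2
    simp only [gg] at h1
    rw [if_neg hσ, dif_neg (by omega)] at h1
    constructor
    · intro h2; rwa [if_pos h2] at h1
    · intro h2; rwa [if_neg h2] at h1
  have hT : {σ : alternatingGroup (Fin k) | σ ≠ 1 → (.inl (.b σ ⟨0, hk⟩) : Y k L) ∈ S} =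
      Set.univ := by
    apply h.cl
    · intro h1; exact (h1 rfl).elim
    · intro σ hσ h2
      by_cases h3 : σ = 1
      · have h1 := hcl _ hz
        simp only [gg] at h1
        rwa [h3]
      · exact (hfold' σ h3 (hσ h3)).2 h2
  have hb : ∀ σ : alternatingGroup (Fin k), σ ≠ 1 → (.inl (.b σ ⟨0, hk⟩) : Y k L) ∈ S := by
    intro σ
    have : σ ∈ {σ : alternatingGroup (Fin k) | σ ≠ 1 → (.inl (.b σ ⟨0, hk⟩) : Y k L) ∈ S} := by
      rw [hT]; trivial
    exact this
  have hv0 : (.inl (.v ⟨0, hk⟩) : Y k L) ∈ S :=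
    (hfold' (ρ⁻¹ 1) h.inv_ne (hb _ h.inv_ne)).1 (by simp)
  -- straight line
  have hthr : ∀ i, (.inl (.u i) : Y k L) ∈ S → ∀ m (hm : m < L),
      (.inr (i, ⟨m, hm⟩) : Y k L) ∈ S := by
    intro i hi m
    induction m with
    | zero =>
      intro hm
      have h1 := hcl _ hi
      simp only [gg] at h1
      exact h1
    | succ m ih =>
      intro hm
      have h1 := hcl _ (ih (by omega))
      simp only [gg] at h1
      rwa [dif_pos hm] at h1
  have hstr : ∀ j, (.inl (.v j) : Y k L) ∈ S → (.inl (.c 1 j) : Y k L) ∈ S ∧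
      (.inl (.d 1 j) : Y k L) ∈ S ∧ (.inl (.b 1 j) : Y k L) ∈ S ∧ (.inl (.u j) : Y k L) ∈ S := by
    intro j hj
    have h1 := hcl _ hj
    simp only [gg] at h1
    have h2 := hcl _ h1
    simp only [gg, if_true] at h2
    have h3 := hcl _ h2
    simp only [gg, if_true] at h3
    have h4 := hcl _ h3
    simp only [gg, if_true] at h4
    exact ⟨h1, h2, h3, h4⟩
  have hJ : {j | (.inl (.v j) : Y k L) ∈ S} = Set.univ := by
    apply h.clπ
    · exact hv0
    · intro j hj
      show (.inl (.v (π j)) : Y k L) ∈ S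
      have h1 := hcl _ (hthr j (hstr j hj).2.2.2 (L - 1) (by omega))
      simp only [gg] at h1
      rw [dif_neg (by omega)] at h1
      by_cases h2 : (π j).val = 0
      · have : π j = ⟨0, hk⟩ := Fin.ext h2
        rw [this]; exact hv0
      · rwa [if_neg h2] at h1
  have hv : ∀ j, (.inl (.v j) : Y k L) ∈ S := by
    intro j
    have : j ∈ {j | (.inl (.v j) : Y k L) ∈ S} := by rw [hJ]; trivial
    exact this
  apply Set.eq_univ_of_forall
  rintro ((_ | j | ⟨σ, j⟩ | ⟨σ, j⟩ | ⟨σ, j⟩ | i) | ⟨i, s⟩)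
  · exact hz
  · exact hv j
  · by_cases h1 : σ = 1
    · rw [h1]; exact (hstr j (hv j)).1
    · exact (hfold σ h1 (hb σ h1) j.val j.isLt).2.2
  · by_cases h1 : σ = 1
    · rw [h1]; exact (hstr j (hv j)).2.1
    · exact (hfold σ h1 (hb σ h1) j.val j.isLt).2.1
  · by_cases h1 : σ = 1
    · rw [h1]; exact (hstr j (hv j)).2.2.1
    · exact (hfold σ h1 (hb σ h1) j.val j.isLt).1
  · exact (hstr i (hv i)).2.2.2
  · exact hthr i (hstr i (hv i)).2.2.2 s.val s.isLt

theorem hamSet_of_cyc (hL : 0 < L) (h : Cyc π hk ρ) : (hamSet (und (Arc (L := L) π))).Nonempty := by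
  have hs := gg_surj (L := L) (hL := hL) h
  exact hamSet_nonempty (gg π hk hL ρ) ⟨(Finite.injective_iff_surjective.2 hs), hs⟩ gg_arc
    (.inl .z) (gg_trans h)

/-- For `k ≥ 3` there are two permutations such that one graph is Hamiltonian and the other one
is not. -/
theorem main_pair (k L : ℕ) (hk : 3 ≤ k) (hL : 0 < L) : ∃ π π' : Perm (Fin k),
    (hamSet (und (Arc (L := L) π))).Nonempty ∧ hamSet (und (Arc (L := L) π')) = ∅ := by
  obtain ⟨n, rfl⟩ : ∃ n, k = n + 1 := ⟨k - 1, by omega⟩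
  obtain ⟨ρ, hρ⟩ := exists_cyclic (1 : alternatingGroup (Fin (n + 1)))
  have hne : ρ 1 ≠ 1 := by
    intro h1
    have h2 : ({1} : Set (alternatingGroup (Fin (n + 1)))) = Set.univ := by
      apply hρ
      · rfl
      · intro x hx
        rw [Set.mem_singleton_iff] at hx
        rw [hx, h1]; rfl
    have hmem : (finRotate 3).viaFintypeEmbedding
        (Fin.castLEEmb (show 3 ≤ n + 1 from hk)) ∈ alternatingGroup (Fin (n + 1)) := by
      rw [Perm.mem_alternatingGroup, Perm.viaFintypeEmbedding_sign, sign_finRotate]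
      rfl
    have h3 : (⟨_, hmem⟩ : alternatingGroup (Fin (n + 1))) ∈
        ({1} : Set (alternatingGroup (Fin (n + 1)))) := by rw [h2]; trivial
    rw [Set.mem_singleton_iff] at h3
    have h4 := congrArg (fun x : alternatingGroup (Fin (n + 1)) => (x : Perm (Fin (n + 1)))
      ((Fin.castLEEmb (show 3 ≤ n + 1 from hk)) 0)) h3
    simp only [Perm.viaFintypeEmbedding_apply_image] at h4
    simp at h4
    have h5 := congrArg Fin.val h4
    simp at h5
  refine ⟨finRotate (n + 1), finRotate (n + 1) * swap ⟨0, by omega⟩ ⟨1, by omega⟩, ?_, ?_⟩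
  · exact hamSet_of_cyc (hk := Nat.succ_pos n) hL ⟨hne, hρ, finRotate_closed n⟩
  · rw [Set.eq_empty_iff_forall_notMem]
    intro H hH
    obtain ⟨g, h1, h2, h3⟩ := exists_map_of_mem hH
    have h4 := sign_of_ham (Nat.succ_pos n) hL h1 h2 h3
    rw [Perm.sign_mul, sign_finRotate, Perm.sign_swap (by simp [Fin.ext_iff]), pow_succ] at h4
    simp only [Nat.succ_eq_add_one, Nat.add_sub_cancel] at h4
    rcases neg_one_pow_eq_or ℤˣ n with h5 | h5 <;> rw [h5] at h4 <;> revert h4 <;> decide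

end Pool.Agent.X62.HD
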