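import Pool.Agent.X62.HD.Core

/-!
# The family `und (Arc π)` is swappable, and depends only on the sign of `π`
-/

open Equiv

namespace Pool.Agent.X62.HD

/-- an isomorphism of digraphs gives one of graphs -/
theorem und_iso {Y Z : Type} {D : Y → Y → Prop} {D' : Z → Z → Prop} (f : Y ≃ Z)
    (h : ∀ x y, D' (f x) (f y) ↔ D x y) : Nonempty (und D ≃g und D') := by
  refine ⟨⟨f.prodCongr (Equiv.refl _), ?_⟩⟩
  rintro ⟨a, i⟩ ⟨b, j⟩
  simp only [und_adj, rel, Equiv.prodCongr_apply, Prod.map, Equiv.refl_apply, h,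
    EmbeddingLike.apply_eq_iff_eq]

variable {k L : ℕ}

/-- relabelling by an even permutation -/
def relab (γ : alternatingGroup (Fin k)) : Y k L → Y k L
  | .inl .z => .inl .z
  | .inl (.v j) => .inl (.v j)
  | .inl (.c σ j) => .inl (.c (σ * γ⁻¹) j)
  | .inl (.d σ j) => .inl (.d (σ * γ⁻¹) j)
  | .inl (.b σ j) => .inl (.b (σ * γ⁻¹) j)
  | .inl (.u i) => .inl (.u ((γ : Perm (Fin k)) i))
  | .inr (i, s) => .inr ((γ : Perm (Fin k)) i, s)

theorem relab_relab (γ : alternatingGroup (Fin k)) (x : Y k L) :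
    relab γ⁻¹ (relab γ x) = x := by
  rcases x with (_ | j' | ⟨σ', j'⟩ | ⟨σ', j'⟩ | ⟨σ', j'⟩ | i) | ⟨i, s⟩ <;> simp [relab]

theorem relab_arc (π : Perm (Fin k)) (γ : alternatingGroup (Fin k)) (x y : Y k L) :
    Arc (π * (γ : Perm (Fin k))⁻¹) (relab γ x) (relab γ y) ↔ Arc π x y := by
  rcases x with (_ | j | ⟨σ, j⟩ | ⟨σ, j⟩ | ⟨σ, j⟩ | i) | ⟨i, s⟩ <;>
  rcases y with (_ | j' | ⟨σ', j'⟩ | ⟨σ', j'⟩ | ⟨σ', j'⟩ | i') | ⟨i', s'⟩ <;>
  simp [relab, Arc]

/-- The graph depends only on the sign of `π`. -/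
theorem iso_of_sign (π π' : Perm (Fin k)) (h : Perm.sign π = Perm.sign π') :
    Nonempty (und (Arc (L := L) π) ≃g und (Arc (L := L) π')) := by
  have hγ : π'⁻¹ * π ∈ alternatingGroup (Fin k) := by
    rw [Perm.mem_alternatingGroup, Perm.sign_mul, Perm.sign_inv, h]
    rcases Int.units_eq_one_or (Perm.sign π') with h4 | h4 <;> rw [h4] <;> rfl
  set γ : alternatingGroup (Fin k) := ⟨π'⁻¹ * π, hγ⟩ with hγd
  have hπ' : π' = π * (γ : Perm (Fin k))⁻¹ := by
    rw [hγd]; simp
  have h2 : ∀ x : Y k L, relab γ (relab γ⁻¹ x) = x := by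
    intro x
    have := relab_relab γ⁻¹ x
    rwa [inv_inv] at this
  rw [hπ']
  exact und_iso ⟨relab γ, relab γ⁻¹, relab_relab γ, h2⟩ (relab_arc π γ)

/-- The thread vertices. -/
def thr (k L : ℕ) : Fin k × Fin (3 * L) ↪ Y k L × Fin 3 where
  toFun a := (.inr (a.1, ⟨a.2.val / 3, by omega⟩), ⟨a.2.val % 3, by omega⟩)
  inj' := by
    rintro ⟨i, p⟩ ⟨j, q⟩ h
    simp only [Prod.mk.injEq, Sum.inr.injEq, Fin.mk.injEq] at h
    obtain ⟨⟨h1, h2⟩, h3⟩ := h
    rw [h1]
    congr 1
    apply Fin.ext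
    omega

theorem thr_eq (a : Fin k) (s : Fin L) (q : Fin 3) :
    thr k L (a, ⟨3 * s.val + q.val, by omega⟩) = (.inr (a, s), q) := by
  show ((.inr (a, ⟨(3 * s.val + q.val) / 3, by omega⟩), ⟨(3 * s.val + q.val) % 3, by omega⟩) :
    Y k L × Fin 3) = _
  have h1 : (⟨(3 * s.val + q.val) / 3, by omega⟩ : Fin L) = s := by
    apply Fin.ext
    simp only
    omega
  have h2 : (⟨(3 * s.val + q.val) % 3, by omega⟩ : Fin 3) = q := by
    apply Fin.ext
    simp only
    omega
  rw [h1, h2]

theorem tau_inl (i j : Fin k) (r : ℕ) (x : Core k) (q : Fin 3) :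
    tau (thr k L) i j r (.inl x, q) = (.inl x, q) := by
  apply tau_not
  rintro ⟨a, ha⟩
  have := congrArg Prod.fst ha
  have h2 : (Sum.inr (a.1, ⟨a.2.val / 3, by omega⟩) : Y k L) = Sum.inl x := this
  simp at h2

theorem tau_inr (i j : Fin k) (r : ℕ) (a : Fin k) (s : Fin L) (q : Fin 3) :
    tau (thr k L) i j r (.inr (a, s), q) =
      (.inr (if r < 3 * s.val + q.val then swap i j a else a, s), q) := by
  rw [← thr_eq, tau_th, thr_eq]

theorem swap_ne_iff {i j a b : Fin k} (ha : a ≠ i) (ha' : a ≠ j) : a = swap i j b ↔ a = b := by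
  constructor
  · intro h
    have h2 : swap i j a = b := by rw [h]; simp
    rw [← h2, swap_apply_of_ne_of_ne ha ha']
  · rintro rfl
    rw [swap_apply_of_ne_of_ne ha ha']

theorem rel_tau (π : Perm (Fin k)) (i j : Fin k) (r : Fin (3 * L)) (x y : Y k L × Fin 3)
    (hxi : x ≠ thr k L (i, r)) (hxj : x ≠ thr k L (j, r)) :
    rel (Arc π) x y ↔
      rel (Arc (π * swap i j)) (tau (thr k L) i j r x) (tau (thr k L) i j r y) := by
  obtain ⟨x | ⟨a, s⟩, q⟩ := x <;> obtain ⟨y | ⟨a', s'⟩, q'⟩ := y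
  · rw [tau_inl, tau_inl]
    unfold rel
    have : Arc (L := L) π (.inl x) (.inl y) ↔ Arc (L := L) (π * swap i j) (.inl x) (.inl y) := by
      cases x <;> cases y <;> simp only [Arc]
    rw [this]
  · rw [tau_inl, tau_inr]
    unfold rel
    simp only [reduceCtorEq, false_and, false_or]
    constructor
    · rintro ⟨h1, h2, h3⟩
      refine ⟨h1, h2, ?_⟩
      cases x <;> simp only [Arc] at h3 ⊢
      have h4 := h3.2
      rw [h2, if_neg (by rw [h4]; simp)]
      exact h3
    · rintro ⟨h1, h2, h3⟩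
      refine ⟨h1, h2, ?_⟩
      cases x <;> simp only [Arc] at h3 ⊢
      have h4 := h3.2
      rw [h2, if_neg (by rw [h4]; simp)] at h3
      exact h3
  · rw [tau_inl, tau_inr]
    unfold rel
    simp only [reduceCtorEq, false_and, false_or]
    have key : q = 2 → s.val + 1 = L →
        (π * swap i j) (if r.val < 3 * s.val + q.val then swap i j a else a) = π a := by
      intro hq hs
      split_ifs with h
      · simp
      · have hr : r = ⟨3 * s.val + q.val, by omega⟩ := by
          apply Fin.ext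
          have := r.isLt
          have : q.val = 2 := by rw [hq]; rfl
          simp only
          omega
        rw [hr, thr_eq] at hxi hxj
        have h1 : a ≠ i := fun h => hxi (by rw [h])
        have h2 : a ≠ j := fun h => hxj (by rw [h])
        rw [Perm.mul_apply, swap_apply_of_ne_of_ne h1 h2]
    constructor
    · rintro ⟨h1, h2, h3⟩
      refine ⟨h1, h2, ?_⟩
      cases y <;> simp only [Arc] at h3 ⊢
      · rw [key h1 h3.1]; exact h3
      · rw [key h1 h3.1]; exact h3
    · rintro ⟨h1, h2, h3⟩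
      refine ⟨h1, h2, ?_⟩
      cases y <;> simp only [Arc] at h3 ⊢
      · rw [key h1 h3.1] at h3; exact h3
      · rw [key h1 h3.1] at h3; exact h3
  · rw [tau_inr, tau_inr]
    have hrel : ∀ (π : Perm (Fin k)) (a a' : Fin k), rel (Arc (L := L) π) (.inr (a, s), q)
        (.inr (a', s'), q') ↔ a = a' ∧ 3 * s'.val + q'.val = 3 * s.val + q.val + 1 := by
      intro π a a'
      unfold rel
      simp only [Sum.inr.injEq, Prod.mk.injEq, Arc]
      fin_cases q <;> fin_cases q' <;> simp [Fin.ext_iff] <;> omega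
    rw [hrel, hrel]
    apply and_congr_left
    intro hpos
    rw [hpos]
    by_cases h1 : r.val < 3 * s.val + q.val
    · rw [if_pos h1, if_pos (by omega)]
      simp
    · rw [if_neg h1]
      by_cases h2 : r.val < 3 * s.val + q.val + 1
      · rw [if_pos h2]
        have hr : r = ⟨3 * s.val + q.val, by omega⟩ := by
          apply Fin.ext
          simp only
          omega
        rw [hr, thr_eq] at hxi hxj
        have h1 : a ≠ i := fun h => hxi (by rw [h])
        have h2 : a ≠ j := fun h => hxj (by rw [h])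
        exact (swap_ne_iff h1 h2).symm
      · rw [if_neg h2]

theorem swappable (k L : ℕ) :
    Swappable (thr k L) (fun π : Perm (Fin k) => und (Arc (L := L) π)) := by
  intro π i j r _ x y h1 h2 h3 h4
  simp only [und_adj]
  rw [rel_tau π i j r x y h1 h2, rel_tau π i j r y x h3 h4]

/-- For `t < (k - 1) * 3 * L` all the graphs `und (Arc π)` have the same `t`-vertex deck. -/
theorem sameDeck_und (k L : ℕ) (t : ℕ) (ht : t < (k - 1) * (3 * L)) (π π' : Perm (Fin k)) :
    SameDeck (und (Arc (L := L) π)) (und (Arc (L := L) π')) t := by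
  have : Fintype (Y k L × Fin 3) := Fintype.ofFinite _
  exact sameDeck (thr k L) (fun π : Perm (Fin k) => und (Arc (L := L) π)) (swappable k L)
    iso_of_sign t ht π π'

end Pool.Agent.X62.HD
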