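import Mathlib

/-!
# From digraphs to graphs, for Hamilton cycles

`und D` is the graph obtained from a digraph `D` by replacing each vertex `y` by a path
`(y,0) - (y,1) - (y,2)` and each arc `y → z` by the edge `(y,2) - (z,0)`.
-/

namespace Pool.Agent.X62.HD

/-- The set of Hamilton cycles of a graph, as spanning connected `2`-regular subgraphs. -/
def hamSet {V : Type} (G : SimpleGraph V) : Set (SimpleGraph V) :=
  {H | H ≤ G ∧ H.Connected ∧ ∀ v, (H.neighborSet v).ncard = 2}

/-- oriented adjacency in `und D` -/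
def rel {Y : Type} (D : Y → Y → Prop) (a b : Y × Fin 3) : Prop :=
  (a.1 = b.1 ∧ ((a.2 = 0 ∧ b.2 = 1) ∨ (a.2 = 1 ∧ b.2 = 2))) ∨ (a.2 = 2 ∧ b.2 = 0 ∧ D a.1 b.1)

/-- the undirected graph of a digraph -/
def und {Y : Type} (D : Y → Y → Prop) : SimpleGraph (Y × Fin 3) where
  Adj a b := rel D a b ∨ rel D b a
  symm := ⟨fun a b h => h.symm⟩
  loopless := ⟨by
    rintro ⟨y, i⟩ (h | h) <;> · rcases h with ⟨-, ⟨h1, h2⟩ | ⟨h1, h2⟩⟩ | ⟨h1, h2, -⟩ <;>
        simp only at h1 h2 <;> rw [h1] at h2 <;> exact absurd h2 (by decide)⟩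

variable {Y : Type} {D : Y → Y → Prop}

theorem und_adj {a b : Y × Fin 3} : (und D).Adj a b ↔ rel D a b ∨ rel D b a := Iff.rfl

theorem und_one {y : Y} {b : Y × Fin 3} : (und D).Adj (y, 1) b ↔ b = (y, 0) ∨ b = (y, 2) := by
  obtain ⟨z, i⟩ := b
  rw [und_adj]
  unfold rel
  fin_cases i <;> simp [eq_comm]

theorem und_two {y : Y} {b : Y × Fin 3} :
    (und D).Adj (y, 2) b ↔ b = (y, 1) ∨ (b.2 = 0 ∧ D y b.1) := by
  obtain ⟨z, i⟩ := b
  rw [und_adj]
  unfold rel
  fin_cases i <;> simp [eq_comm]

theorem und_zero {y : Y} {b : Y × Fin 3} :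
    (und D).Adj (y, 0) b ↔ b = (y, 1) ∨ (b.2 = 2 ∧ D b.1 y) := by
  obtain ⟨z, i⟩ := b
  rw [und_adj]
  unfold rel
  fin_cases i <;> simp [eq_comm]

/-- A Hamilton cycle of `und D` gives a cyclic arrangement of the vertices of `D` along arcs. -/
theorem exists_map_of_mem [Finite Y] {H : SimpleGraph (Y × Fin 3)} (hH : H ∈ hamSet (und D)) :
    ∃ g : Y → Y, Function.Bijective g ∧ (∀ y, D y (g y)) ∧
      ∀ S : Set Y, S.Nonempty → (∀ y ∈ S, g y ∈ S) → S = Set.univ := by
  classical
  obtain ⟨hle, hconn, hreg⟩ := hH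
  -- middle vertices
  have hmid : ∀ y, H.neighborSet (y, 1) = {(y, 0), (y, 2)} := by
    intro y
    apply Set.eq_of_subset_of_ncard_le
    · intro b hb
      exact und_one.1 (hle hb)
    · rw [hreg, Set.ncard_pair]
      simp
    · exact Set.toFinite _
  have h10 : ∀ y, H.Adj (y, 1) (y, 0) := by
    intro y
    have : ((y, 0) : Y × Fin 3) ∈ H.neighborSet (y, 1) := by rw [hmid]; simp
    exact this
  have h12 : ∀ y, H.Adj (y, 1) (y, 2) := by
    intro y
    have : ((y, 2) : Y × Fin 3) ∈ H.neighborSet (y, 1) := by rw [hmid]; simp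
    exact this
  -- outgoing
  have hout : ∀ y, ∃ z, H.neighborSet (y, 2) = {(y, 1), (z, 0)} ∧ D y z := by
    intro y
    obtain ⟨p, q, hpq, hN⟩ := Set.ncard_eq_two.1 (hreg (y, 2))
    have hmem : ((y, 1) : Y × Fin 3) ∈ H.neighborSet (y, 2) := (h12 y).symm
    have key : ∀ q : Y × Fin 3, q ≠ (y, 1) → q ∈ H.neighborSet (y, 2) →
        ∃ z, q = (z, 0) ∧ D y z := by
      intro q hq hqm
      rcases und_two.1 (hle hqm) with h | ⟨h1, h2⟩
      · exact absurd h hq
      · exact ⟨q.1, by rw [← h1], h2⟩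
    rw [hN] at hmem
    rcases hmem with h | h
    · obtain ⟨z, hz, hD⟩ := key q (by rw [h]; exact hpq.symm) (by rw [hN]; simp)
      exact ⟨z, by rw [hN, ← h, hz], hD⟩
    · rw [Set.mem_singleton_iff] at h
      obtain ⟨z, hz, hD⟩ := key p (by rw [h]; exact hpq) (by rw [hN]; simp)
      exact ⟨z, by rw [hN, ← h, hz, Set.pair_comm], hD⟩
  have hin : ∀ y, ∃ z, H.neighborSet (y, 0) = {(y, 1), (z, 2)} ∧ D z y := by
    intro y
    obtain ⟨p, q, hpq, hN⟩ := Set.ncard_eq_two.1 (hreg (y, 0))
    have hmem : ((y, 1) : Y × Fin 3) ∈ H.neighborSet (y, 0) := (h10 y).symm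
    have key : ∀ q : Y × Fin 3, q ≠ (y, 1) → q ∈ H.neighborSet (y, 0) →
        ∃ z, q = (z, 2) ∧ D z y := by
      intro q hq hqm
      rcases und_zero.1 (hle hqm) with h | ⟨h1, h2⟩
      · exact absurd h hq
      · exact ⟨q.1, by rw [← h1], h2⟩
    rw [hN] at hmem
    rcases hmem with h | h
    · obtain ⟨z, hz, hD⟩ := key q (by rw [h]; exact hpq.symm) (by rw [hN]; simp)
      exact ⟨z, by rw [hN, ← h, hz], hD⟩
    · rw [Set.mem_singleton_iff] at h
      obtain ⟨z, hz, hD⟩ := key p (by rw [h]; exact hpq) (by rw [hN]; simp)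
      exact ⟨z, by rw [hN, ← h, hz, Set.pair_comm], hD⟩
  choose g hg hgD using hout
  choose g' hg' hgD' using hin
  have hadj : ∀ y z, H.Adj (y, 2) (z, 0) ↔ z = g y := by
    intro y z
    have : (z, 0) ∈ H.neighborSet (y, 2) ↔ z = g y := by
      rw [hg y]; simp
    exact this
  have hadj' : ∀ y z, H.Adj (y, 2) (z, 0) ↔ y = g' z := by
    intro y z
    have : (y, 2) ∈ H.neighborSet (z, 0) ↔ y = g' z := by
      rw [hg' z]; simp
    rw [← this]
    exact SimpleGraph.adj_comm _ _ _
  have hgg' : ∀ z, g (g' z) = z := fun z => ((hadj _ _).1 ((hadj' _ _).2 rfl)).symm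
  have hg'g : ∀ y, g' (g y) = y := fun y => ((hadj' _ _).1 ((hadj _ _).2 rfl)).symm
  have hbij : Function.Bijective g :=
    ⟨Function.LeftInverse.injective hg'g, Function.RightInverse.surjective hgg'⟩
  refine ⟨g, hbij, hgD, ?_⟩
  intro S hS hcl
  have hcl' : ∀ y ∈ S, g' y ∈ S := by
    have hinj : Set.InjOn g S := hbij.1.injOn
    have himg : g '' S = S := by
      apply Set.eq_of_subset_of_ncard_le
      · rintro _ ⟨y, hy, rfl⟩
        exact hcl y hy
      · rw [hinj.ncard_image]
      · exact Set.toFinite _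
    intro y hy
    rw [← himg] at hy
    obtain ⟨x, hx, rfl⟩ := hy
    rw [hg'g]
    exact hx
  have hstep : ∀ a b : Y × Fin 3, a.1 ∈ S → H.Adj a b → b.1 ∈ S := by
    rintro ⟨y, i⟩ b hy hab
    have hb : b ∈ H.neighborSet (y, i) := hab
    fin_cases i
    · have hb' : b ∈ H.neighborSet (y, 0) := hb
      rw [hg' y] at hb'
      rcases hb' with rfl | hb'
      · exact hy
      · rw [Set.mem_singleton_iff] at hb'
        rw [hb']
        exact hcl' y hy
    · have hb' : b ∈ H.neighborSet (y, 1) := hb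
      rw [hmid y] at hb'
      rcases hb' with rfl | hb'
      · exact hy
      · rw [Set.mem_singleton_iff] at hb'
        rw [hb']
        exact hy
    · have hb' : b ∈ H.neighborSet (y, 2) := hb
      rw [hg y] at hb'
      rcases hb' with rfl | hb'
      · exact hy
      · rw [Set.mem_singleton_iff] at hb'
        rw [hb']
        exact hcl y hy
  obtain ⟨y0, hy0⟩ := hS
  apply Set.eq_univ_of_forall
  intro y
  obtain ⟨w⟩ := hconn.preconnected (y0, 0) (y, 0)
  have hwalk : ∀ (a b : Y × Fin 3) (w : H.Walk a b), a.1 ∈ S → b.1 ∈ S := by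
    intro a b w
    induction w with
    | nil => exact id
    | cons h _ ih => exact fun ha => ih (hstep _ _ ha h)
  exact hwalk _ _ w hy0

/-- Conversely a cyclic arrangement gives a Hamilton cycle. -/
theorem hamSet_nonempty (g : Y → Y) (hbij : Function.Bijective g) (hgD : ∀ y, D y (g y))
    (y0 : Y) (htr : ∀ S : Set Y, y0 ∈ S → (∀ y ∈ S, g y ∈ S) → S = Set.univ) :
    (hamSet (und D)).Nonempty := by
  refine ⟨und fun y z => z = g y, ?_, ?_, ?_⟩
  · rintro a b (h | h)
    · left
      rcases h with h | ⟨h1, h2, h3⟩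
      · exact Or.inl h
      · refine Or.inr ⟨h1, h2, ?_⟩
        rw [h3]; exact hgD _
    · right
      rcases h with h | ⟨h1, h2, h3⟩
      · exact Or.inl h
      · refine Or.inr ⟨h1, h2, ?_⟩
        rw [h3]; exact hgD _
  · have h01 : ∀ y, (und fun y z => z = g y).Adj (y, 0) (y, 1) := fun y => und_zero.2 (Or.inl rfl)
    have h12 : ∀ y, (und fun y z => z = g y).Adj (y, 1) (y, 2) := fun y => und_one.2 (Or.inr rfl)
    have h20 : ∀ y, (und fun y z => z = g y).Adj (y, 2) (g y, 0) :=
      fun y => und_two.2 (Or.inr ⟨rfl, rfl⟩)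
    have hS : {y | (und fun y z => z = g y).Reachable (y0, 0) (y, 0)} = Set.univ := by
      apply htr
      · exact SimpleGraph.Reachable.refl _
      · intro y hy
        exact hy.trans ((h01 y).reachable.trans ((h12 y).reachable.trans (h20 y).reachable))
    have hall : ∀ a, (und fun y z => z = g y).Reachable (y0, 0) a := by
      rintro ⟨y, i⟩
      have hy : (und fun y z => z = g y).Reachable (y0, 0) (y, 0) := by
        have : y ∈ {y | (und fun y z => z = g y).Reachable (y0, 0) (y, 0)} := by rw [hS]; trivial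
        exact this
      fin_cases i
      · exact hy
      · exact hy.trans (h01 y).reachable
      · exact hy.trans ((h01 y).reachable.trans (h12 y).reachable)
    rw [SimpleGraph.connected_iff]
    exact ⟨fun a b => (hall a).symm.trans (hall b), ⟨(y0, 0)⟩⟩
  · rintro ⟨y, i⟩
    fin_cases i
    · obtain ⟨x, hx⟩ := hbij.2 y
      have : (und fun y z => z = g y).neighborSet (y, 0) = {(y, 1), (x, 2)} := by
        ext b
        show (und fun y z => z = g y).Adj (y, 0) b ↔ _
        rw [und_zero]
        constructor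
        · rintro (h | ⟨h1, h2⟩)
          · exact Or.inl h
          · right
            rw [Set.mem_singleton_iff]
            have : b.1 = x := hbij.1 (by rw [← h2, hx])
            rw [← this, ← h1]
        · rintro (h | h)
          · exact Or.inl h
          · rw [Set.mem_singleton_iff] at h
            rw [h]
            exact Or.inr ⟨rfl, hx.symm⟩
      show ((und fun y z => z = g y).neighborSet (y, 0)).ncard = 2
      rw [this, Set.ncard_pair]
      simp
    · have : (und fun y z => z = g y).neighborSet (y, 1) = {(y, 0), (y, 2)} := by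
        ext b
        show (und fun y z => z = g y).Adj (y, 1) b ↔ _
        rw [und_one]
        simp
      show ((und fun y z => z = g y).neighborSet (y, 1)).ncard = 2
      rw [this, Set.ncard_pair]
      simp
    · have : (und fun y z => z = g y).neighborSet (y, 2) = {(y, 1), (g y, 0)} := by
        ext b
        show (und fun y z => z = g y).Adj (y, 2) b ↔ _
        rw [und_two]
        constructor
        · rintro (h | ⟨h1, h2⟩)
          · exact Or.inl h
          · right
            rw [Set.mem_singleton_iff, ← h2, ← h1]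
        · rintro (h | h)
          · exact Or.inl h
          · rw [Set.mem_singleton_iff] at h
            rw [h]
            exact Or.inr ⟨rfl, rfl⟩
      show ((und fun y z => z = g y).neighborSet (y, 2)).ncard = 2
      rw [this, Set.ncard_pair]
      simp

end Pool.Agent.X62.HD
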